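import Mathlib
import Pool.Agent.helper12.FI.Defs

/-!
# Project fi (MP_baa4d7_al), block A1: relative block theory (central characters of subgroups)

Definitions: `Pool/Agent/helper12/FI/Defs.lean` (`cls`, `SB`, `Bl`, `TT`, `DefL`, `Rt`, `Good`), `pp p N = |N|_p`
(`helper12/OB/Defs`), `Cz L y = L ⊓ centralizer {y}`, `PEl`, `PReg`, `CF`, `Sf`, `eS`, `BC`, `dl`, `Blk` (GR), `cc`, `cv`, `cz`, `nz`,
`Mcong` (DI), `cvp`, `DefAt` (OB), `IntAt`, `InM`, `Small` (`helper83/GR/Ari`, with many proved lemmas).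

RULES. File `Pool/Agent/<seat>/FI/XXX.lean` with

  import Pool.Agent.helper22.FI.SpecA
  set_option autoImplicit false
  namespace Pool.Agent.FI
  open Pool.Agent.helper58.DC Pool.Agent.DI Pool.Agent.GR Pool.Agent.OB
  theorem XXX (hYYY : YYY_stmt) ... : XXX_stmt := ...
  end Pool.Agent.FI

auxiliary lemmas prefixed `XXX_`; no sorry, no double quotes, no own tactics, no `convert`, no `congr!`. Hypotheses: any other
statement of this file (no circles: a row may use only rows which stand BEFORE it), and the PROVED rows of the projects GR, OB, DI,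
DC: import their files instead of taking them as hypotheses if you like, or take them as hypotheses. The files of
all of them: `Pool/Agent/helper12/OB/All.lean`, `Pool/Agent/helper83/GR/All.lean` and the files imported there.
-/

set_option autoImplicit false

namespace Pool.Agent.FI

open Pool.Agent.helper58.DC Pool.Agent.DI Pool.Agent.GR Pool.Agent.OB

/-- The characters of `K` whose block induces to the block of `L` with the central character of `θ`. `Bq M L L θ = Bl M L θ`. -/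
def Bq {G : Type} [Group G] (M : Ideal (integralClosure ℤ ℂ)) (L K : Subgroup G) (θ : G → ℂ) : Set (G → ℂ) :=
  {η | η ∈ IrrOn K ∧ SB M L η θ}

open Classical in
/-- restriction of a function to a subgroup, extended by zero -/
noncomputable def rsH {G : Type} [Group G] (H : Subgroup G) (z : G → ℂ) : G → ℂ := fun x => if x ∈ H then z x else 0

/-! ## 1. General facts -/

/-- **ORP** (short to medium; only Mathlib and Ari). Orbit counting for a `p`-group. Proof: the orbits of length `> 1` have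
length divisible by `p` (`IsPGroup.card_orbit`), `w` is constant on orbits, so the difference is `p` times an element of the local
ring. (For instance: partition by `MulAction.orbitRel`, `Finset.sum_fiberwise`; or by ORB of GR and induction; or integers: compare
`Pool/Agent` row BRP of OB.) -/
def ORP_stmt : Prop :=
  ∀ (p : ℕ) (M : Ideal (integralClosure ℤ ℂ)), Setup p M → ∀ (R : Type) [Group R] [Finite R], IsPGroup p R →
    ∀ (X : Type) [Finite X] [MulAction R X] (w : X → ℂ), (∀ x, IntAt M (w x)) → (∀ (r : R) x, w (r • x) = w x) →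
    InM M (∑ᶠ x, w x - ∑ᶠ x ∈ MulAction.fixedPoints R X, w x)

/-- **CFX** (short; from ORP). Conjugation by a `p`-subgroup. (ORP for the action of `R` on `G` by conjugation, for instance
`MulAction.compHom` with `MulAut.conj` or a direct instance; the fixed points are the elements of `cz R`.) -/
def CFX_stmt : Prop :=
  ∀ (p : ℕ) (M : Ideal (integralClosure ℤ ℂ)), Setup p M → ∀ (G : Type) [Group G] [Finite G] (R : Subgroup G), IsPGroup p R →
    ∀ f : G → ℂ, (∀ x, IntAt M (f x)) → (∀ r ∈ R, ∀ x, f (r * x * r⁻¹) = f x) →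
    InM M (∑ᶠ x, f x - ∑ᶠ x ∈ (cz R : Set G), f x)

/-- **BQA** (short; from CFX). The Brauer homomorphism for a `p`-subgroup `P`, functions invariant under `P` only. Proof:
`cv z w c = ∑_x z x * w (x⁻¹ c)`; for `c ∈ cz P` the summand is invariant under `x ↦ r x r⁻¹`, `r ∈ P`. For `x ∈ cz P` also
`x⁻¹ c ∈ cz P`, so the sum over `cz P` is the right side. -/
def BQA_stmt : Prop :=
  ∀ (p : ℕ) (M : Ideal (integralClosure ℤ ℂ)), Setup p M → ∀ (G : Type) [Group G] [Finite G] (P : Subgroup G), IsPGroup p P →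
    ∀ z w : G → ℂ, (∀ r ∈ P, ∀ x, z (r * x * r⁻¹) = z x) → (∀ r ∈ P, ∀ x, w (r * x * r⁻¹) = w x) →
    (∀ x, IntAt M (z x)) → (∀ x, IntAt M (w x)) → ∀ c ∈ cz P, InM M (cv z w c - cv (rsH (cz P) z) (rsH (cz P) w) c)

/-- **SYL** (short to medium; only Mathlib). Sylow theory for subgroups of `G`. (a) Lagrange. (b), (c) Sylow for the group `K`
(transfer with `Subgroup.subgroupOf`, `Subgroup.map K.subtype`; compare `Pool/Agent` rows DG1, DGN of OB). (d) `K ≤ K'` gives divisibility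
of the orders. (e), (f), (g) direct. -/
def SYL_stmt : Prop :=
  ∀ (p : ℕ) [Fact p.Prime] (G : Type) [Group G] [Finite G],
    (∀ R K : Subgroup G, IsPGroup p R → R ≤ K → Nat.card R ≤ pp p K ∧ Nat.card R ∣ pp p K) ∧
    (∀ R K : Subgroup G, IsPGroup p R → R ≤ K → ∃ S : Subgroup G, R ≤ S ∧ S ≤ K ∧ IsPGroup p S ∧ Nat.card S = pp p K) ∧
    (∀ S K R : Subgroup G, IsPGroup p S → S ≤ K → Nat.card S = pp p K → IsPGroup p R → R ≤ K →
      ∃ k ∈ K, (∀ r ∈ R, k * r * k⁻¹ ∈ S) ∧ (Nat.card R = pp p K → R.map (MulAut.conj k).toMonoidHom = S)) ∧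
    (∀ K K' : Subgroup G, K ≤ K' → pp p K ≤ pp p K') ∧
    (∀ (K : Subgroup G) (g : G), pp p (K.map (MulAut.conj g).toMonoidHom) = pp p K ∧
      Nat.card (K.map (MulAut.conj g).toMonoidHom) = Nat.card K) ∧
    (∀ (L : Subgroup G) (y : G), ∀ l ∈ L, Cz L (l * y * l⁻¹) = (Cz L y).map (MulAut.conj l).toMonoidHom ∧
      pp p (Cz L (l * y * l⁻¹)) = pp p (Cz L y)) ∧
    (∀ y : G, cz (Subgroup.zpowers y) = Subgroup.centralizer {y}) ∧
    (∀ y : G, PEl p y → IsPGroup p (Subgroup.zpowers y)) ∧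
    ∀ y g : G, (PReg p y → PReg p (g * y * g⁻¹)) ∧ (PEl p y → PEl p (g * y * g⁻¹))

/-- **STC** (short; from GLP of GR). Proof: `σ` = complex conjugation (`starRingEnd ℂ` as a `RingEquiv`, `Complex.conjAe`), `n = Nat.card G`,
`s = n - 1` is coprime to `n`, and `σ ζ = ζ⁻¹ = ζ ^ (n - 1)` for `ζ ^ n = 1` (`n = 1`: `ζ = 1`). By GLP `star (ψ g) = ψ (g ^ (n - 1))`, and
`g ^ (n - 1) = g⁻¹`. -/
def STC_stmt : Prop :=
  ∀ (G : Type) [Group G] [Finite G] (L : Subgroup G), ∀ ψ ∈ IrrOn L, ∀ g, ψ g⁻¹ = (starRingEnd ℂ) (ψ g)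

/-! ## 2. Class sums and central characters -/

/-- **CLS** (short; from C3 of DI). The indicator functions of `L`-classes. Last item: for `ψ ∈ IrrOn H`, `H ≤ L` the number is integral (C3 (1) of DI for
the group `H`: `cls L y` is invariant under `H`). -/
def CLS_stmt : Prop :=
  ∀ (G : Type) [Group G] [Finite G] (L : Subgroup G) (y : G),
    (∀ l ∈ L, ∀ x, cls L y (l * x * l⁻¹) = cls L y x) ∧ (y ∈ L → CF L (cls L y)) ∧ (∀ x, IsIntegral ℤ (cls L y x)) ∧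
    (∀ x, cls L y x = 1 ↔ ∃ l ∈ L, l * y * l⁻¹ = x) ∧ (∀ x, cls L y x = 0 ∨ cls L y x = 1) ∧
    (∀ l ∈ L, cls L (l * y * l⁻¹) = cls L y) ∧
    (∀ ψ : G → ℂ, (∀ x, x ∉ L → ψ x = 0) → y ∉ L → cc ψ (cls L y) = 0) ∧
    (∀ ψ : G → ℂ, omega ψ y = cc ψ (cls ⊤ y)) ∧
    ∀ H : Subgroup G, H ≤ L → ∀ ψ ∈ IrrOn H, IsIntegral ℤ (cc ψ (cls L y))

/-- **DCM** (short to medium; from CLS). Decomposition of `cc ψ z` into class sums, `z` invariant under `L`. (1) `z = ∑ z(y) cls L y` over representatives `y` of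
the orbits of `L` on `G` (compare `CCI_decomp` in `Pool/Agent/helper50/GR/CCI.lean`; or write `z x = ∑_y (z y / n_y) cls L y x`, where `n_y` is the
number of the `L`-conjugates of `y`, and use that the sum over `y` groups into classes), so `cc ψ z` is the sum of the `z y * cc ψ (cls L y)`. (2) is the
same for `IntAt`. (3) `SB` can be tested on class sums: (1) for the differences `cc η - cc ψ`, integral values `z y`; conversely `z = cls L y`. -/
def DCM_stmt : Prop :=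
  ∀ (G : Type) [Group G] [Finite G] (L : Subgroup G) (M : Ideal (integralClosure ℤ ℂ)) (p : ℕ), Setup p M →
    (∀ (ψ z : G → ℂ), (∀ l ∈ L, ∀ x, z (l * x * l⁻¹) = z x) → (∀ x, IntAt M (z x)) → (∀ x, IntAt M (cc ψ (cls L x))) →
      IntAt M (cc ψ z) ∧ ((∀ x, InM M (z x) ∨ InM M (cc ψ (cls L x))) → InM M (cc ψ z))) ∧
    (∀ η ψ : G → ℂ, SB M L η ψ ↔ ∀ y ∈ L, Mcong M (cc η (cls L y)) (cc ψ (cls L y)))

/-- **SBI** (short; only Ari). `SB` for functions with values in the local ring. Proof: `b ∉ M` a common denominator of the values of `z`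
(`IntAt.common`, `G` is finite): `b • z` is a class function with integral values, `cc η (b • z) = b * cc η z`, so `b * (cc η z - cc ψ z)` is in `M`,
and we divide by `b`. Second item: if all `cc η (cls L y)` are integral, also `¬ InM` transfers: `InM (cc η (cls L y)) ↔ InM (cc ψ (cls L y))`. -/
def SBI_stmt : Prop :=
  ∀ (p : ℕ) (M : Ideal (integralClosure ℤ ℂ)), Setup p M → ∀ (G : Type) [Group G] [Finite G] (L : Subgroup G) (η ψ : G → ℂ),
    SB M L η ψ → (∀ z : G → ℂ, CF L z → (∀ x, IntAt M (z x)) → InM M (cc η z - cc ψ z)) ∧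
      ∀ y ∈ L, (InM M (cc η (cls L y)) ↔ InM M (cc ψ (cls L y)))

/-- **TRN** (short). Transitivity. Proof: let `z` be an `L`-class function, `z' = rsH H z`, an `H`-class function. As `η`, `ψ` vanish outside `H`, `cc η z = cc η z'`,
`cc ψ z = cc ψ z'`, and these are congruent. -/
def TRN_stmt : Prop :=
  ∀ (G : Type) [Group G] (M : Ideal (integralClosure ℤ ℂ)) (H L : Subgroup G), H ≤ L → ∀ η ψ φ : G → ℂ,
    (∀ x, x ∉ H → η x = 0) → (∀ x, x ∉ H → ψ x = 0) → SB M H η ψ → SB M L η ψ ∧ (SB M L ψ φ ↔ SB M L η φ)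

/-- **CJG** (short to medium; from IF of DC). Conjugation by `g : G`. (Item 6: `cc (funMap (conj g) η) z = cc η (fun x => z (g x g⁻¹))` is `cc_funMap` of Defs,
and `z` is invariant under `g ∈ L`.) -/
def CJG_stmt : Prop :=
  ∀ (G : Type) [Group G] [Finite G] (M : Ideal (integralClosure ℤ ℂ)) (p : ℕ) (g : G) (L : Subgroup G),
    (∀ ψ ∈ IrrOn L, funMap (MulAut.conj g) ψ ∈ IrrOn (L.map (MulAut.conj g).toMonoidHom)) ∧
    (∀ η ψ : G → ℂ, SB M L η ψ →
      SB M (L.map (MulAut.conj g).toMonoidHom) (funMap (MulAut.conj g) η) (funMap (MulAut.conj g) ψ)) ∧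
    (∀ (ψ : G → ℂ) (y : G), cc (funMap (MulAut.conj g) ψ) (cls (L.map (MulAut.conj g).toMonoidHom) (g * y * g⁻¹)) =
      cc ψ (cls L y)) ∧
    (∀ (ψ : G → ℂ) (D : Subgroup G) (x : G), DefL p M L ψ D x →
      DefL p M (L.map (MulAut.conj g).toMonoidHom) (funMap (MulAut.conj g) ψ) (D.map (MulAut.conj g).toMonoidHom) (g * x * g⁻¹)) ∧
    (∀ P : Subgroup G, cz (P.map (MulAut.conj g).toMonoidHom) = (cz P).map (MulAut.conj g).toMonoidHom) ∧
    (g ∈ L → ∀ η : G → ℂ, SB M L (funMap (MulAut.conj g) η) η ∧ L.map (MulAut.conj g).toMonoidHom = L) ∧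
    (∀ θ : G → ℂ, Bl M (L.map (MulAut.conj g).toMonoidHom) (funMap (MulAut.conj g) θ) =
      funMap (MulAut.conj g) '' Bl M L θ) ∧
    (∀ (h : G) (ψ : G → ℂ), funMap (MulAut.conj g) (funMap (MulAut.conj h) ψ) = funMap (MulAut.conj (g * h)) ψ) ∧
    ∀ (P K : Subgroup G) (y : G), K = L ⊓ cz P → K.map (MulAut.conj g).toMonoidHom =
      L.map (MulAut.conj g).toMonoidHom ⊓ cz (P.map (MulAut.conj g).toMonoidHom) ∧
      (Cz L y).map (MulAut.conj g).toMonoidHom = Cz (L.map (MulAut.conj g).toMonoidHom) (g * y * g⁻¹)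

/-- **TPR** (short; from CLS, DCM, C3 of DI, TI of DC). The case `L = ⊤`. (`Cz ⊤ y = centralizer {y}`, `omega ψ y = cc ψ (cls ⊤ y)`, `IrrOn ⊤ = Irr G` by TI of DC.) -/
def TPR_stmt : Prop :=
  ∀ (p : ℕ) (M : Ideal (integralClosure ℤ ℂ)), Setup p M → ∀ (G : Type) [Group G] [Finite G],
    IrrOn (⊤ : Subgroup G) = Irr G ∧ (∀ η ψ : G → ℂ, Induces M η ψ ↔ SB M ⊤ η ψ) ∧
    (∀ (χ : G → ℂ) (D : Subgroup G) (x : G), DefAt p M χ D x → DefL p M ⊤ χ D x) ∧
    (∀ (χ : G → ℂ) (H : Subgroup G), Blk M χ H = Bq M ⊤ H χ) ∧ ∀ y : G, Cz (⊤ : Subgroup G) y = Subgroup.centralizer {y}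

/-- **BLE** (short to medium; from IDM, EIN, BR0, EXP of GR). Block idempotents. `Bq M L K θ` is a union of blocks of `K ≤ L` (TRN). The idempotent vanishes at `x` not `p`-regular: `x = y v`
with the `p`-part `y ≠ 1`; `eS K S x = Sf S 1 x / |K|` and BR0 for `1 * 1` and `y * v` (`h⁻¹ 1 h = 1 ≠ y`). -/
def BLE_stmt : Prop :=
  ∀ (p : ℕ) (M : Ideal (integralClosure ℤ ℂ)), Setup p M → ∀ (G : Type) [Group G] [Finite G] (L K : Subgroup G), K ≤ L →
    ∀ θ : G → ℂ, BC M K (Bq M L K θ) ∧ CF K (eS K (Bq M L K θ)) ∧ (∀ x, IntAt M (eS K (Bq M L K θ) x)) ∧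
    cv (eS K (Bq M L K θ)) (eS K (Bq M L K θ)) = eS K (Bq M L K θ) ∧
    (∀ φ ∈ Bq M L K θ, cc φ (eS K (Bq M L K θ)) = 1) ∧
    (∀ φ ∈ IrrOn K, φ ∉ Bq M L K θ → cc φ (eS K (Bq M L K θ)) = 0) ∧
    (∀ x, ¬ PReg p x → eS K (Bq M L K θ) x = 0) ∧ Bq M L L θ = Bl M L θ

/-- **MLT** (medium; from BQA, CVF, CCI of GR). The central character of a subgroup `L ⊓ cz Q` is multiplicative modulo `M` on the class functions of `L`. Proof: let
`H = L ⊓ cz Q`, `' = rsH H`; for a function which vanishes outside `L` this is `rsH (cz Q)`. First item: BQA (`z`, `w` are invariant under `Q ≤ L`). Second item: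
`cc θ (cv z w) = cc θ (cv z w)'` as `θ` vanishes outside `H`; the function `(cv z w)' - cv z' w'` is invariant under `H` and all its values are in `InM` (first item; outside of `H` it
vanishes, CVF), so by CCI (3) `cc θ (cv z w)` is modulo `InM` equal to `cc θ (cv z' w') = cc θ z' * cc θ w' = cc θ z * cc θ w` (CCI (2)). Third item: induction over
`n` from the first one (CVF: `InM` values are an ideal). -/
def MLT_stmt : Prop :=
  ∀ (p : ℕ) (M : Ideal (integralClosure ℤ ℂ)), Setup p M → ∀ (G : Type) [Group G] [Finite G] (L Q : Subgroup G),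
    IsPGroup p Q → Q ≤ L →
    (∀ z w : G → ℂ, CF L z → CF L w → (∀ x, IntAt M (z x)) → (∀ x, IntAt M (w x)) →
      CF (L ⊓ cz Q) (rsH (L ⊓ cz Q) z) ∧
      (∀ x, InM M (rsH (L ⊓ cz Q) (cv z w) x - cv (rsH (L ⊓ cz Q) z) (rsH (L ⊓ cz Q) w) x)) ∧
      (∀ θ ∈ IrrOn (L ⊓ cz Q), cc θ (rsH (L ⊓ cz Q) z) = cc θ z ∧ InM M (cc θ (cv z w) - cc θ z * cc θ w))) ∧
    ∀ z : G → ℂ, CF L z → (∀ x, IntAt M (z x)) → ∀ (n : ℕ) (x : G),
      InM M (rsH (L ⊓ cz Q) (cvp z n) x - cvp (rsH (L ⊓ cz Q) z) n x)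

/-- **EXB** (medium; from MLT, CVF, CCI, EXP of GR, B2, C3 of DI). Induced blocks exist. Proof (as LIF of GR, `Pool/Agent` row LIF): let `H = L ⊓ cz Q` and suppose that there is no such `ψ`. For each
`ψ ∈ IrrOn L` there is an `L`-class function `z_ψ` with integral values and `cc θ z_ψ`, `cc ψ z_ψ` not congruent; both are integral (C3 (1)), so `cc θ z_ψ - cc ψ z_ψ` is not `InM`
(`InM.mcong`). Put `g_ψ = z_ψ - cc ψ z_ψ • dl`: good (`CF L`, values `IntAt`), `cc ψ g_ψ = 0`, `cc θ g_ψ` not `InM`. By induction over the finite subsets `T` of `IrrOn L` there is a good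
`g` with `cc ψ g = 0` for `ψ ∈ T` and `¬ InM M (cc θ g)` (product `cv`; `cc ψ` is multiplicative by CCI (2), `cc θ` modulo `InM` by MLT; `InM.or`). For `T = IrrOn L`
we get `g = 0` by EXP, a contradiction. -/
def EXB_stmt : Prop :=
  ∀ (p : ℕ) (M : Ideal (integralClosure ℤ ℂ)), Setup p M → ∀ (G : Type) [Group G] [Finite G] (L Q : Subgroup G),
    IsPGroup p Q → Q ≤ L → ∀ θ ∈ IrrOn (L ⊓ cz Q), ∃ ψ ∈ IrrOn L, SB M L θ ψ

/-! ## 3. Defect groups -/

/-- **SPW** (medium; from BLE, CLS, PWN of OB, CVF, CCI of GR). Let `e = eS L (Bl M L ψ)`, `k = cls L y`, `o = cc ψ k`, not in `M`. Then `e` is modulo `M` a multiple of `k`. Proof: let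
`z = cv e k - o • e`, a class function of `L` with values `IntAt`. For `η ∈ IrrOn L` `cc η z = cc η e * (cc η k - o)` is `0` if `η` is not in the block and `InM` if it is (`SB M L η ψ`, SBI).
By PWN all values of some `cvp z n` are `InM`, hence those of `cvp z (n + 1)`. By induction on `n`: `cvp z (n + 1) = (-o)^(n+1) • e + cv k w_n` with a class function `w_n` of `L` with values `IntAt`
(`w_0 = e`, `w_(n+1) = (-o)^(n+1) • e + cv w_n z`; use `cv e e = e`, `cv e k = cv k e`, `cv e z = z`, CVF). So `e x` is modulo `InM` equal to `cv k w x` with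
`w = -(-o)^(-(n+1)) • w_n` (`o⁻¹` is `IntAt`, `IntAt.inv`). -/
def SPW_stmt : Prop :=
  ∀ (p : ℕ) (M : Ideal (integralClosure ℤ ℂ)), Setup p M → ∀ (G : Type) [Group G] [Finite G] (L : Subgroup G),
    ∀ ψ ∈ IrrOn L, ∀ y ∈ L, ¬ InM M (cc ψ (cls L y)) → ∃ w : G → ℂ, CF L w ∧ (∀ x, IntAt M (w x)) ∧
      ∀ x, InM M (eS L (Bl M L ψ) x - cv (cls L y) w x)

/-- **SUP** (short to medium; from SPW, CFX). Support of the block idempotent. Proof: `w` from SPW. `cv (cls L y) w a = ∑_x cls L y x * w (x⁻¹ a)` is not `InM`. The summand is invariant under `x ↦ r x r⁻¹`,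
`r ∈ R` (`R ≤ L` commutes with `a`). By CFX the sum over the `x ∈ cz R` is not `InM`, so there is `x ∈ cz R` with `cls L y x ≠ 0`: `x = l y l⁻¹`, `l ∈ L`, and `R` commutes with `x`. -/
def SUP_stmt : Prop :=
  ∀ (p : ℕ) (M : Ideal (integralClosure ℤ ℂ)), Setup p M → ∀ (G : Type) [Group G] [Finite G] (L : Subgroup G),
    ∀ ψ ∈ IrrOn L, ∀ a ∈ L, ¬ InM M (eS L (Bl M L ψ) a) → ∀ y ∈ L, ¬ InM M (cc ψ (cls L y)) →
    ∀ R : Subgroup G, IsPGroup p R → R ≤ Cz L a → ∃ l ∈ L, ∀ r ∈ R, l⁻¹ * r * l ∈ Cz L y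

/-- **DEX** (short to medium; from BLE, SUP, DCM, SYL, CLS). Existence of defect groups. Proof: `e = eS L (Bl M L ψ)`, `cc ψ e = 1`. By DCM (the numbers `cc ψ (cls L x)` are integral, CLS) there is `y` with `e y`
and `cc ψ (cls L y)` not `InM`; `y ∈ L` and `PReg p y` as `e y ≠ 0` (BLE). `D` a Sylow `p`-subgroup of `Cz L y` (SYL for `R = ⊥`). `min`: SUP with `a = y`, `R = D`: `l⁻¹ D l` is a `p`-subgroup of `Cz L y'`. -/
def DEX_stmt : Prop :=
  ∀ (p : ℕ) (M : Ideal (integralClosure ℤ ℂ)), Setup p M → ∀ (G : Type) [Group G] [Finite G] (L : Subgroup G),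
    ∀ ψ ∈ IrrOn L, ∃ (D : Subgroup G) (x : G), DefL p M L ψ D x ∧ ¬ InM M (eS L (Bl M L ψ) x)

/-- **DUN** (short to medium; from DEX, SUP, SYL). Uniqueness of defect groups, and minimality. Proof: `(D₁, x₁)` from DEX. Let `(D, x)` be given. SUP with `a = x₁`, `R = D₁`, `y = x`: `l⁻¹ D₁ l ≤ Cz L x`, and
`D` is a Sylow subgroup of `Cz L x` (`DefL.card`), so `D₁` is conjugate in `L` to a subgroup of `D` (SYL); and `|D| ≤ pp p (Cz L x₁) = |D₁|` by `min`. So `D₁` and `D` are conjugate in `L`. (1) The same for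
`(D', x')`. (2) SUP with `a = x₁`, `R = D₁` and `D = l D₁ l⁻¹`. (3) SUP with the given `a`, `R`, and `y = x`; then Sylow in `Cz L x`. -/
def DUN_stmt : Prop :=
  ∀ (p : ℕ) (M : Ideal (integralClosure ℤ ℂ)), Setup p M → ∀ (G : Type) [Group G] [Finite G] (L : Subgroup G),
    ∀ ψ ∈ IrrOn L, ∀ (D : Subgroup G) (x : G), DefL p M L ψ D x →
    (∀ (D' : Subgroup G) (x' : G), DefL p M L ψ D' x' → ∃ l ∈ L, D.map (MulAut.conj l).toMonoidHom = D') ∧
    (∀ y ∈ L, ¬ InM M (cc ψ (cls L y)) → ∃ l ∈ L, ∀ d ∈ D, l⁻¹ * d * l ∈ Cz L y) ∧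
    ∀ a ∈ L, ¬ InM M (eS L (Bl M L ψ) a) → ∀ R : Subgroup G, IsPGroup p R → R ≤ Cz L a →
      ∃ l ∈ L, ∀ r ∈ R, l⁻¹ * r * l ∈ D

/-- **DGW** (medium; from BQA or CFX, SYL, DCM, CLS, CCI of GR). The central character factors through `L ⊓ cz D` (relative form of DG1 of OB; adapt its file). Proof: `k = cls L x`,
`cc ψ (cv k w) = cc ψ k * cc ψ w` (CCI (2)). CLAIM: for every `y ∈ L` either `cc ψ (cls L y)` or `cv k w y` is `InM`. Let `¬ InM M (cc ψ (cls L y))`, `Q` a Sylow `p`-subgroup of `Cz L y`, so `|D| ≤ |Q|`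
(`min`). By BQA for `P = Q` (`y ∈ cz Q`) `cv k w y` is modulo `InM` the sum of the `k u * w (u⁻¹ y)` over the `u ∈ cz Q` (then `u⁻¹ y ∈ cz Q`). Let `k u ≠ 0`: `u = h x h⁻¹`, `h ∈ L`, and `Q ≤ Cz L u`, so
`|Q| ≤ |Cz L u|_p = |Cz L x|_p = |D|`: `Q` and `h D h⁻¹` are Sylow subgroups of `Cz L u`, and changing `h` by an element of `Cz L u` we may suppose `Q = h D h⁻¹`. Then `h⁻¹ (u⁻¹ y) h ∈ L ⊓ cz D` and
`w (u⁻¹ y) = w (h⁻¹ (u⁻¹ y) h)` is `InM`. For `y ∉ L` `cv k w y = 0`. So `cc ψ (cv k w)` is `InM` by DCM, and `InM.or`. -/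
def DGW_stmt : Prop :=
  ∀ (p : ℕ) (M : Ideal (integralClosure ℤ ℂ)), Setup p M → ∀ (G : Type) [Group G] [Finite G] (L : Subgroup G),
    ∀ ψ ∈ IrrOn L, ∀ (D : Subgroup G) (x : G), DefL p M L ψ D x → ∀ w : G → ℂ, CF L w → (∀ x, IntAt M (w x)) →
    (∀ y ∈ L ⊓ cz D, InM M (w y)) → InM M (cc ψ w)

/-- **DGL** (medium; from DGW, MLT, PWN of OB, CVF, CCI of GR, C3, B2 of DI). Relative form of DG2 of OB (adapt its file). Proof: `H = L ⊓ cz D`, `' = rsH H`. Suppose that no `θ ∈ IrrOn H` satisfies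
`SB M L θ ψ`. For each `θ` there is an integral `L`-class function `z_θ` with `¬ InM M (cc θ z_θ - cc ψ z_θ)` (both integral); `g_θ = z_θ - cc θ z_θ • dl`: `cc θ g_θ = 0`, `¬ InM M (cc ψ g_θ)`. Let `g` be the
product of all `g_θ` (induction over finite subsets `T` of `IrrOn H`: `CF L g`, values `IntAt`, `¬ InM M (cc ψ g)`, `InM M (cc θ g)` for `θ ∈ T`; MLT, CCI (2)). By PWN for `H` and `g'` (`cc θ g' = cc θ g`)
some `cvp g' n` has all values `InM`, so by the last item of MLT `w = cvp g n` is `InM` on `H`. DGW: `cc ψ w = (cc ψ g) ^ n` is `InM`, and `InM.of_pow` gives a contradiction. -/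
def DGL_stmt : Prop :=
  ∀ (p : ℕ) (M : Ideal (integralClosure ℤ ℂ)), Setup p M → ∀ (G : Type) [Group G] [Finite G] (L : Subgroup G),
    ∀ ψ ∈ IrrOn L, ∀ (D : Subgroup G) (x : G), DefL p M L ψ D x → ∃ θ ∈ IrrOn (L ⊓ cz D), SB M L θ ψ

/-- **CNTL** (short; from CLS, SBI, SYL). Containment. Proof: `cc ψ (cls L x)` is not `InM`, hence (SBI) `cc η (cls L x)` is not, so it is not `0`, and as `η` vanishes outside of `L ⊓ cz R` some
`u = l x l⁻¹`, `l ∈ L`, is in `cz R`. So `l⁻¹ R l ≤ Cz L x`, and `D` is a Sylow `p`-subgroup of `Cz L x` (SYL). -/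
def CNTL_stmt : Prop :=
  ∀ (p : ℕ) (M : Ideal (integralClosure ℤ ℂ)), Setup p M → ∀ (G : Type) [Group G] [Finite G] (L R : Subgroup G),
    IsPGroup p R → R ≤ L → ∀ η ∈ IrrOn (L ⊓ cz R), ∀ ψ : G → ℂ, SB M L η ψ → ∀ (D : Subgroup G) (x : G), DefL p M L ψ D x →
    ∃ l ∈ L, ∀ r ∈ R, l * r * l⁻¹ ∈ D

/-- **NCJ** (short; from SYL). Proof: `y = l x l⁻¹ ∈ cz D`, so `D` and `l D l⁻¹` are contained in `Cz L y = l (Cz L x) l⁻¹` and both are Sylow `p`-subgroups of it; there is `c ∈ Cz L y` with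
`c (l D l⁻¹) c⁻¹ = D`, and `n = c l`. -/
def NCJ_stmt : Prop :=
  ∀ (p : ℕ) [Fact p.Prime] (G : Type) [Group G] [Finite G] (L D : Subgroup G) (x : G), IsPGroup p D → D ≤ Cz L x →
    Nat.card D = pp p (Cz L x) → ∀ l ∈ L, l * x * l⁻¹ ∈ cz D → ∃ n ∈ L, n ∈ nz D ∧ n * x * n⁻¹ = l * x * l⁻¹

/-! ## 4. The second main theorem, relative to `L` -/

/-- **EQY** (medium; from BLE, BRH, LIF, NIL, CVF, CCI, IDM of GR, TRN). Relative form of EQL of GR (adapt its file). Proof: let `K = Cz H y`, `e = eS H (Bl M H θ)`, `f = eS K (Bq M H K θ)`, `e' = rs y e`. By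
BRH and `cv e e = e` the function `cv e' e' - e'` has values `InM`, `cv f f = f`, `cv e' f = cv f e'`. So `z = e' - f` satisfies: `cv (cv z z) z - z` has values `InM`. For `η ∈ IrrOn K` take `ψ ∈ IrrOn H` from
LIF: `SB M H η ψ` (LIF for integral `z`, both sides integral, `InM.mcong`). So `η ∈ Bq M H K θ ↔ ψ ∈ Bl M H θ`, and `cc η e' = cc η e` is congruent to `cc ψ e`. So `cc η z` is `InM` (IDM). Use NIL. -/
def EQY_stmt : Prop :=
  ∀ (p : ℕ) (M : Ideal (integralClosure ℤ ℂ)), Setup p M → ∀ (G : Type) [Group G] [Finite G] (H : Subgroup G),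
    ∀ y ∈ H, PEl p y → ∀ θ : G → ℂ, ∀ x ∈ Cz H y, InM M (eS H (Bl M H θ) x - eS (Cz H y) (Bq M H (Cz H y) θ) x)

/-- **BRY** (medium; from EQY, BLE, KYG, IDM, FCO, CVF, SFC, ZER of GR). Relative form of BR2 of GR (adapt its file: replace `Blk M χ H` by `Bl M H θ`, `Blk M χ (Cz H y)` by `Bq M H (Cz H y) θ`, `EQL` by `EQY`,
`EIN` and `BCL` by `BLE`). -/
def BRY_stmt : Prop :=
  ∀ (p : ℕ) (M : Ideal (integralClosure ℤ ℂ)), Setup p M → ∀ (G : Type) [Group G] [Finite G] (H : Subgroup G),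
    ∀ y ∈ H, PEl p y → ∀ θ : G → ℂ, ∀ v ∈ Cz H y, ∀ v' ∈ Cz H y, PReg p v → PReg p v' →
    Sf (Bl M H θ) (y * v) (y * v') = Sf (Bq M H (Cz H y) θ) v v'

/-! ## 5. Blocks with central defect group -/

/-- **VN1** (short to medium; from BRY, CNTL, STC, SYL, B2 of DI). Let `D ≤ L ≤ cz D` be a defect group of the block of `ψ` in `L`. Then the characters of the block vanish outside of `D` times the `p`-regular elements. Proof: by BRY and STC
`Sf (Bl M L ψ) (y v) (y v) = ∑_{ψ'} |ψ' (y v)|^2` is equal to `Sf (Bq M L (Cz L y) ψ) v v`, and `Bq M L (Cz L y) ψ` is empty: `Cz L y = L ⊓ cz (zpowers y)` (SYL), so for a member `η` CNTL gives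
`l ∈ L` with `l y l⁻¹ ∈ D`; as `D` commutes with `L`, `y = l⁻¹ (l y l⁻¹) l = l y l⁻¹ ∈ D`. -/
def VN1_stmt : Prop :=
  ∀ (p : ℕ) (M : Ideal (integralClosure ℤ ℂ)), Setup p M → ∀ (G : Type) [Group G] [Finite G] (L D : Subgroup G) (w : G),
    L ≤ cz D → ∀ ψ ∈ IrrOn L, DefL p M L ψ D w → ∀ ψ' ∈ Bl M L ψ, ∀ y ∈ L, PEl p y → y ∉ D → ∀ v ∈ Cz L y, PReg p v →
    ψ' (y * v) = 0

/-- **DVD** (medium; from VN1, PPT, SCH of GR, C3, B2 of DI). Orthogonality on `p`-regular elements. `D` is central in `L` (`D ≤ L` by `DefL.le`). (0) By SCH for central `y`: `ψ' (y v) * ψ' 1 = ψ' y * ψ' v` for `y ∈ D`, `v ∈ L`, and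
`ψ' y * ψ' y⁻¹ = ψ' 1 ^ 2`. (1) `∑_{g ∈ L} ψ₁ g ψ₂ g⁻¹ = |L| [ψ₁ = ψ₂]` (B2). By PPT it is the sum over the `p`-elements `y` of `L` and the `p`-regular `v ∈ Cz L y` of `ψ₁ (y v) ψ₂ (y v)⁻¹`, which vanishes for
`y ∉ D` (VN1) and for `y ∈ D` (`Cz L y = L`) is `(ψ₁ y / ψ₁ 1) (ψ₂ y⁻¹ / ψ₂ 1) ψ₁ v ψ₂ v⁻¹ = ψ₁ v ψ₂ v⁻¹` by (0) and the hypothesis (`ψ₂ y⁻¹ / ψ₂ 1 = ψ₁ y⁻¹ / ψ₁ 1`). So it is `|D| ∑_v ψ₁ v ψ₂ v⁻¹`. (2) Let
`f x = ψ' x⁻¹` for `x ∈ L` `p`-regular, `0` otherwise: an `L`-class function with integral values, `cc ψ' f = |L| / (|D| ψ' 1)` by (1), integral by C3 and rational, hence an integer. -/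
def DVD_stmt : Prop :=
  ∀ (p : ℕ) (M : Ideal (integralClosure ℤ ℂ)), Setup p M → ∀ (G : Type) [Group G] [Finite G] (L D : Subgroup G) (w : G),
    L ≤ cz D → ∀ ψ ∈ IrrOn L, DefL p M L ψ D w →
    (∀ ψ' ∈ IrrOn L, ∀ y ∈ D, (∀ v ∈ L, ψ' (y * v) * ψ' 1 = ψ' y * ψ' v) ∧ ψ' y * ψ' y⁻¹ = ψ' 1 ^ 2) ∧
    (∀ ψ₁ ∈ Bl M L ψ, ∀ ψ₂ ∈ Bl M L ψ, (∀ d ∈ D, ψ₁ d * ψ₂ 1 = ψ₂ d * ψ₁ 1) →
      (ψ₁ = ψ₂ → (Nat.card D : ℂ) * ∑ᶠ v ∈ {v : G | v ∈ L ∧ PReg p v}, ψ₁ v * ψ₂ v⁻¹ = Nat.card L) ∧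
      (ψ₁ ≠ ψ₂ → ∑ᶠ v ∈ {v : G | v ∈ L ∧ PReg p v}, ψ₁ v * ψ₂ v⁻¹ = 0)) ∧
    ∀ ψ' ∈ Bl M L ψ, ∃ n k : ℕ, ψ' 1 = n ∧ n * Nat.card D * k = Nat.card L

/-- **ALP** (medium; from DVD, SBI, DCM, CLS, SYL, B2 of DI). Let `D` be abelian, `H = L ⊓ cz D` and `θ ∈ IrrOn H` with `b(θ)^L = b(ψ)`. Proof: `D ≤ H`. `cc θ (cls L x)` is not `InM` (SBI), and it is `cc θ (rsH H (cls L x))`; by DCM
for the group `H` there is `w` with `rsH H (cls L x) w ≠ 0` and `¬ InM M (cc θ (cls H w))`: `w ∈ H` and `w` is conjugate to `x` in `L`. `D ≤ Cz H w ≤ Cz L w`, and `|Cz L w|_p = |Cz L x|_p = |D|` (SYL), so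
`|D| = pp p (Cz H w)`. `DefL p M H θ D w`: `min`: `D ≤ Cz H y` for all `y ∈ H`. By DVD for `H`, `θ`: `n * |D| * k = |H|`, `n = θ 1`. Let `m = |H : Cz H w|`; `cc θ (cls H w) = m θ w / n` (`m` elements in the class) and
`m = |H| / |Cz H w| = n |D| k / |Cz H w|`, `|Cz H w| = |D| s`, `p` does not divide `s`; so `cc θ (cls H w) = (k / s) θ w` is not `InM`: neither `k` nor `θ w` is `InM` (`1 / s` is `IntAt`, `θ w` is integral). -/
def ALP_stmt : Prop :=
  ∀ (p : ℕ) (M : Ideal (integralClosure ℤ ℂ)), Setup p M → ∀ (G : Type) [Group G] [Finite G] (L D : Subgroup G) (x : G),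
    ∀ ψ : G → ℂ, DefL p M L ψ D x → (∀ c ∈ D, ∀ d ∈ D, c * d = d * c) → ∀ θ ∈ IrrOn (L ⊓ cz D), SB M L θ ψ →
    ∃ w ∈ L ⊓ cz D, (∃ l ∈ L, l * x * l⁻¹ = w) ∧ PReg p w ∧ Nat.card D = pp p (Cz (L ⊓ cz D) w) ∧
      ¬ InM M (cc θ (cls (L ⊓ cz D) w)) ∧ ¬ InM M (θ w) ∧ DefL p M (L ⊓ cz D) θ D w ∧
      ∃ n k : ℕ, θ 1 = n ∧ n * Nat.card D * k = Nat.card (L ⊓ cz D : Subgroup G) ∧ ¬ p ∣ k

/-- **HTC** (short; from ALP, SBI, CLS). All characters of a block with central defect group have height zero. Proof: for `ψ' ∈ Bl M L ψ` the numbers `cc ψ' (cls L y)`, `cc ψ (cls L y)` are congruent, so `DefL p M L ψ' D w`. ALP for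
`ψ'`, `θ = ψ'` (`L ⊓ cz D = L`, `SB.refl`; `D` is commutative as `D ≤ L ≤ cz D`). -/
def HTC_stmt : Prop :=
  ∀ (p : ℕ) (M : Ideal (integralClosure ℤ ℂ)), Setup p M → ∀ (G : Type) [Group G] [Finite G] (L D : Subgroup G) (w : G),
    L ≤ cz D → ∀ ψ ∈ IrrOn L, DefL p M L ψ D w → ∀ ψ' ∈ Bl M L ψ, DefL p M L ψ' D w ∧
      ∃ n k : ℕ, ψ' 1 = n ∧ n * Nat.card D * k = Nat.card L ∧ ¬ p ∣ k

/-- **UNQ** (short to medium; from HTC, DVD, SBI). A character of the block is determined by its central character on `D`. Proof: suppose `ψ₁ ≠ ψ₂`. Let `n = ψ₁ 1`, `n |D| k = |L|`, `p` does not divide `k` (HTC), and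
`f x = (1 / k) ψ₁ x⁻¹` for `x ∈ L` `p`-regular, `0` otherwise: an `L`-class function with values `IntAt`. By DVD `cc ψ₁ f = (1 / (n k)) (|L| / |D|) = 1` and `cc ψ₂ f = 0`, but the difference is `InM` by SBI (`SB M L ψ₁ ψ₂`). -/
def UNQ_stmt : Prop :=
  ∀ (p : ℕ) (M : Ideal (integralClosure ℤ ℂ)), Setup p M → ∀ (G : Type) [Group G] [Finite G] (L D : Subgroup G) (w : G),
    L ≤ cz D → ∀ ψ ∈ IrrOn L, DefL p M L ψ D w → ∀ ψ₁ ∈ Bl M L ψ, ∀ ψ₂ ∈ Bl M L ψ,
    (∀ d ∈ D, ψ₁ d * ψ₂ 1 = ψ₂ d * ψ₁ 1) → ψ₁ = ψ₂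

/-- **CHD** (medium; only Mathlib). Characters of a finite commutative group `A` (multiplicative, given as a group with commuting elements to fit `D`), independence. Let `X` be a finite set, `l : X → (A →* ℂˣ)` injective and `s : X → ℂ` such that
`∑_x l x u * s x = 0` for all `u ≠ 1`, and suppose that `s x ≠ 0` for some `x`. Then `l` is bijective and `s` is constant. Proof: let `t : (A →* ℂˣ) → ℂ` be `s` on the image of `l`, `0` elsewhere. For a character `λ`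
`|A| t λ = ∑_u λ u⁻¹ ∑_μ μ u * t μ` (orthogonality `∑_u (μ λ⁻¹) u = 0` for `μ ≠ λ`) `= ∑_μ t μ` (only `u = 1` contributes). So `t` is constant and not `0`, hence `l` is surjective. The number of the characters is
`|A|`: `CommGroup.card_monoidHom_of_hasEnoughRootsOfUnity`. -/
def CHD_stmt : Prop :=
  ∀ (A : Type) [CommGroup A] [Finite A] (X : Type) [Finite X] (l : X → (A →* ℂˣ)) (s : X → ℂ), Function.Injective l →
    (∀ u : A, u ≠ 1 → ∑ᶠ x, ((l x u : ℂˣ) : ℂ) * s x = 0) → (∃ x, s x ≠ 0) → Nat.card X = Nat.card A ∧ ∀ x y, s x = s y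

/-- **GDC** (medium; from CHD, UNQ, HTC, DVD, BR0 of GR, BLE, B2 of DI). THE BASE CASE: a block with central defect group `D` has `|D|` characters, and they agree on the `p`-regular elements. Proof: `S = Bl M L ψ` (finite, B2), `A = D` (a `CommGroup`,
`D ≤ L ≤ cz D`). For `ψ' ∈ S` `λ_ψ' d = ψ' d / ψ' 1` is a homomorphism `D →* ℂˣ` (DVD first item), `ψ' ↦ λ_ψ'` is injective on `S` (UNQ). Let `v`, `v' ∈ L` be `p`-regular and `s ψ' = ψ' v * ψ' v'⁻¹`. For `u ∈ D`, `u ≠ 1`, BR0 of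
GR for `u * v` and `1 * v'` (`h⁻¹ u h = u ≠ 1`; `S` is a union of blocks, BLE) and DVD (0) give `0 = Sf S (u v) v' = ∑_ψ' λ_ψ' u * s ψ'`. For `v = v' = 1` CHD gives the number of characters (`s ψ' = (ψ' 1)^2 ≠ 0`) and that `(ψ' 1)^2`, hence `ψ' 1` (a positive integer), does not depend
on `ψ'`. For `v' = 1` and `v`: either all `s ψ' = ψ' v * ψ' 1` are `0` or CHD says that they are equal; so `ψ' v` does not depend on `ψ'`. -/
def GDC_stmt : Prop :=
  ∀ (p : ℕ) (M : Ideal (integralClosure ℤ ℂ)), Setup p M → ∀ (G : Type) [Group G] [Finite G] (L D : Subgroup G) (w : G),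
    L ≤ cz D → ∀ ψ ∈ IrrOn L, DefL p M L ψ D w → Good p M D L ψ

/-! ## 6. The standing situation -/

/-- **TTF** (short; from CJG). `C = cz D` is contained in `TT M D θ ≤ nz D`; `C` is normalised by `nz D`; `D ≤ TT M D θ` if `D` is abelian. -/
def TTF_stmt : Prop :=
  ∀ (G : Type) [Group G] [Finite G] (M : Ideal (integralClosure ℤ ℂ)) (D : Subgroup G), ∀ θ ∈ IrrOn (cz D),
    cz D ≤ TT M D θ ∧ TT M D θ ≤ nz D ∧ (∀ n ∈ nz D, (cz D).map (MulAut.conj n).toMonoidHom = cz D ∧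
      D.map (MulAut.conj n).toMonoidHom = D) ∧ ((∀ c ∈ D, ∀ d ∈ D, c * d = d * c) → D ≤ cz D ∧ D ≤ TT M D θ) ∧
    ∀ n ∈ nz D, ∀ t ∈ TT M D θ, SB M (cz D) (funMap (MulAut.conj (n * t)) θ) (funMap (MulAut.conj n) θ)

/-- **OSM** (short to medium; only Mathlib and Ari). A sum over cosets. Let `C ≤ T ≤ N`, `h` constant on the left cosets of `C` and, modulo `M`, on those of `T`, and let `p` divide `|T : C|`. Then `(∑_{n ∈ N} h n) / |C|` is `InM`. Proof: for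
`n ∈ N` the sum over the coset `n T` divided by `|C|` is the sum of the values of `h` on the `|T : C|` left cosets of `C` in `n T`, congruent to `|T : C| h n`, hence `InM`. Sum over the left cosets of `T` in `N`. (For instance: `∑_{n ∈ N} h n = |T|⁻¹ ∑_{n ∈ N} ∑_{t ∈ T} h (n t)` is not
enough because `p` may divide `|T|`: choose representatives of the cosets, `Quotient.out` for `G ⧸ T`, restricted to `N`.) -/
def OSM_stmt : Prop :=
  ∀ (p : ℕ) (M : Ideal (integralClosure ℤ ℂ)), Setup p M → ∀ (G : Type) [Group G] [Finite G] (C T N : Subgroup G),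
    C ≤ T → T ≤ N → p ∣ C.relIndex T → ∀ h : G → ℂ, (∀ n ∈ N, IntAt M (h n)) → (∀ n ∈ N, ∀ c ∈ C, h (n * c) = h n) →
    (∀ n ∈ N, ∀ t ∈ T, InM M (h (n * t) - h n)) → InM M ((∑ᶠ n ∈ (N : Set G), h n) / Nat.card C)

/-- **BET** (medium; from OSM, TTF, NCJ, CJG, CLS, TPR, SYL, C3 of DI). The inertial index is prime to `p`. Proof: `C = cz D`, `N = nz D`, `T = TT M D θ`, `x ∈ C` (`DefAt.le`). `omega χ x` is not `InM`, so `omega θ x` is not (`Rt.ind`). The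
conjugates of `x` in `C` are the `n x n⁻¹`, `n ∈ N` (NCJ with `L = ⊤`), so `omega θ x = |N_x|⁻¹ ∑_{n ∈ N} θ (n x n⁻¹) / θ 1`, `N_x = Cz N x`. Let `h n = cc (funMap (conj n⁻¹) θ) (cls C x)`: it is
`|C_x|⁻¹ ∑_{c ∈ C} θ (n c x c⁻¹ n⁻¹) / θ 1`, `C_x = Cz C x`; so `∑_{n ∈ N} h n = (|C| / |C_x|) ∑_{n ∈ N} θ (n x n⁻¹) / θ 1` and `omega θ x = (|C_x| / |N_x|) (∑_{n ∈ N} h n) / |C|`. `D ≤ C_x ≤ N_x ≤ C_G(x)` and
`|D| = |C_G(x)|_p`, so `|N_x| / |C_x|` is prime to `p`. If `p` divided `|T : C|`, then OSM for the function `n ↦ h n⁻¹` (which is `cc (funMap (conj n) θ) (cls C x)`; the sum over `N` is the same) would give that `omega θ x` is `InM`. The hypotheses of OSM: TTF (last item), `funMap (conj c) θ = θ` for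
`c ∈ C`, `x ∈ C`, `InM.of_mcong`, integrality: C3 of DI for `funMap (conj n) θ ∈ IrrOn C` (CJG, TTF). -/
def BET_stmt : Prop :=
  ∀ (p : ℕ) (M : Ideal (integralClosure ℤ ℂ)), Setup p M → ∀ (G : Type) [Group G] [Finite G] (D : Subgroup G) (x : G) (θ χ : G → ℂ),
    Rt p M D x θ χ → ¬ p ∣ (cz D).relIndex (TT M D θ)

/-- **DFL** (medium; from SBI, DCM, CLS, SYL, TPR, C3 of DI). `D` is a defect group of the block `b(θ)^L`, `L = cz P`, `P ≤ D`. Proof: `D ≤ cz D ≤ L` (`D` is abelian). (min) Let `y ∈ L`, `¬ InM M (cc ψ (cls L y))`: `cc θ (cls L y)` is not `InM` (SBI),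
so some `L`-conjugate `y'` of `y` lies in `cz D`; then `D ≤ Cz L y'` and `|D| ≤ pp p (Cz L y') = pp p (Cz L y)` (SYL). (existence) Let `f = rsH L (cls ⊤ x)`, an `L`-class function with values `0`, `1`. `cc θ f = omega θ x` (CLS) is congruent to `omega χ x`,
not `InM`; so `cc ψ f` is not `InM`, and by DCM there is `y ∈ L`, conjugate to `x` in `G`, with `¬ InM M (cc ψ (cls L y))`. As before replace `y` by an `L`-conjugate `x' ∈ cz D`. `D ≤ Cz L x' ≤ C_G(x')`, `|C_G(x')|_p = |C_G(x)|_p = |D|`; so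
`|D| = pp p (Cz L x')`. -/
def DFL_stmt : Prop :=
  ∀ (p : ℕ) (M : Ideal (integralClosure ℤ ℂ)), Setup p M → ∀ (G : Type) [Group G] [Finite G] (D : Subgroup G) (x : G) (θ χ : G → ℂ),
    Rt p M D x θ χ → ∀ P : Subgroup G, P ≤ D → ∀ ψ ∈ IrrOn (cz P), SB M (cz P) θ ψ →
    ∃ x' ∈ cz D, (∃ g : G, g * x * g⁻¹ = x') ∧ DefL p M (cz P) ψ D x'

end Pool.Agent.FI
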