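import Pool.Agent.helper22.FI.SpecA

set_option autoImplicit false

namespace Pool.Agent.FI

open Pool.Agent.helper58.DC Pool.Agent.DI Pool.Agent.GR Pool.Agent.OB

theorem DVD_const {G : Type} [Finite G] (S : Set G) (c : ℂ) : ∑ᶠ _x ∈ S, c = (S.ncard : ℂ) * c := by
  rw [finsum_mem_eq_finite_toFinset_sum _ (Set.toFinite S), Finset.sum_const, nsmul_eq_mul,
    Set.ncard_eq_toFinset_card _ (Set.toFinite S)]

theorem DVD_card {G : Type} [Group G] [Finite G] (L : Subgroup G) : (((L : Set G).ncard : ℕ) : ℂ) = Nat.card L := by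
  rw [← Nat.card_coe_set_eq]
  rfl

theorem DVD_full {G : Type} (S : Set G) (F : G → ℂ) (h : ∀ g, g ∉ S → F g = 0) : ∑ᶠ g ∈ S, F g = ∑ᶠ g, F g := by
  refine finsum_congr fun g => ?_
  by_cases hg : g ∈ S
  · simp [hg]
  · rw [h g hg]
    simp

theorem DVD_pos {P : Prop} (h : P) (c : ℂ) : (∑ᶠ _ : P, c) = c := by simp [h]

theorem DVD_neg {P : Prop} (h : ¬ P) (c : ℂ) : (∑ᶠ _ : P, c) = 0 := by simp [h]

/-- Values at `y v`, `y ∈ D` central. -/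
theorem DVD_A (h3 : SCH_stmt) {G : Type} [Group G] [Finite G] (L D : Subgroup G) (hL : L ≤ cz D) (hD : D ≤ L)
    (ψ : G → ℂ) (hψ : ψ ∈ IrrOn L) (y : G) (hy : y ∈ D) :
    (∀ v ∈ L, ψ (y * v) * ψ 1 = ψ y * ψ v) ∧ ψ y * ψ y⁻¹ = ψ 1 ^ 2 := by
  have hcomm : ∀ t ∈ L, y * t = t * y := fun t ht => (Subgroup.mem_centralizer_iff.1 (hL ht)) y hy
  have hpos : (Nat.card L : ℂ) ≠ 0 := by
    have : 0 < Nat.card L := Nat.card_pos
    exact_mod_cast this.ne'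
  have key : ∀ v ∈ L, ψ (y * v) * ψ 1 = ψ y * ψ v := by
    intro v hv
    have h := h3 G L ψ hψ v hv y
    have e : ∑ᶠ t ∈ (L : Set G), ψ (v * (t * y * t⁻¹)) = (Nat.card L : ℂ) * ψ (y * v) := by
      rw [← DVD_card L, ← DVD_const]
      refine finsum_mem_congr rfl fun t ht => ?_
      rw [← hcomm t ht, mul_assoc, mul_inv_cancel, mul_one, hcomm v hv]
    rw [e] at h
    have h2 : (Nat.card L : ℂ) * (ψ (y * v) * ψ 1) = (Nat.card L : ℂ) * (ψ y * ψ v) := by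
      linear_combination h
    exact mul_left_cancel₀ hpos h2
  refine ⟨key, ?_⟩
  have h := key y⁻¹ (L.inv_mem (hD hy))
  rw [mul_inv_cancel] at h
  rw [← h]
  ring

/-- The sum over `L` in terms of the `p`-regular elements. -/
theorem DVD_B (h1 : VN1_stmt) (h2 : PPT_stmt) (h3 : SCH_stmt) (h5 : B2_stmt) {p : ℕ} {M : Ideal (integralClosure ℤ ℂ)}
    (hs : Setup p M) {G : Type} [Group G] [Finite G] (L D : Subgroup G) (w : G) (hL : L ≤ cz D) (ψ : G → ℂ)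
    (hψ : ψ ∈ IrrOn L) (hdef : DefL p M L ψ D w) (ψ₁ : G → ℂ) (h₁ : ψ₁ ∈ Bl M L ψ) (ψ₂ : G → ℂ) (h₂ : ψ₂ ∈ Bl M L ψ)
    (h : ∀ d ∈ D, ψ₁ d * ψ₂ 1 = ψ₂ d * ψ₁ 1) :
    ∑ᶠ g, ψ₁ g * ψ₂ g⁻¹ =
      (Nat.card D : ℂ) * ∑ᶠ v ∈ {v : G | v ∈ L ∧ PReg p v}, ψ₁ v * ψ₂ v⁻¹ := by
  have hD : D ≤ L := hdef.le.trans inf_le_left
  set T : ℂ := ∑ᶠ v ∈ {v : G | v ∈ L ∧ PReg p v}, ψ₁ v * ψ₂ v⁻¹ with hT
  have b₁ := (h5 G L).2 ψ₁ h₁.1
  have b₂ := (h5 G L).2 ψ₂ h₂.1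
  obtain ⟨n₁, hn₁, e₁, -⟩ := b₁.1
  obtain ⟨n₂, hn₂, e₂, -⟩ := b₂.1
  have z₁ : ψ₁ 1 ≠ 0 := by rw [e₁]; exact_mod_cast hn₁.ne'
  have z₂ : ψ₂ 1 ≠ 0 := by rw [e₂]; exact_mod_cast hn₂.ne'
  have s1 : ∑ᶠ g, ψ₁ g * ψ₂ g⁻¹ = ∑ᶠ g ∈ (L : Set G), ψ₁ g * ψ₂ g⁻¹ := by
    refine (DVD_full _ _ fun g hg => ?_).symm
    rw [b₁.2.2.2.1 g hg, zero_mul]
  rw [s1, h2 p hs.pr G L]
  have hD2 : (Nat.card D : ℂ) * T = ∑ᶠ _y ∈ (D : Set G), T := by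
    rw [DVD_const, DVD_card]
  rw [hD2]
  refine finsum_congr fun y => ?_
  by_cases hy : y ∈ D
  · have hyL : y ∈ L := hD hy
    have hyp : PEl p y := by
      obtain ⟨k, hk⟩ := hdef.pg ⟨y, hy⟩
      refine ⟨k, ?_⟩
      have := congrArg (Subtype.val) hk
      simpa using this
    have hy1 : y ∈ {y : G | y ∈ L ∧ PEl p y} := ⟨hyL, hyp⟩
    have hy2 : y ∈ (D : Set G) := hy
    rw [DVD_pos hy1, DVD_pos hy2, hT]
    have hset : {v : G | v ∈ Cz L y ∧ PReg p v} = {v : G | v ∈ L ∧ PReg p v} := by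
      ext v
      constructor
      · rintro ⟨hv, hv'⟩
        exact ⟨(Subgroup.mem_inf.1 hv).1, hv'⟩
      · rintro ⟨hv, hv'⟩
        refine ⟨Subgroup.mem_inf.2 ⟨hv, ?_⟩, hv'⟩
        rw [Subgroup.mem_centralizer_iff]
        intro z hz
        rw [Set.mem_singleton_iff] at hz
        subst hz
        exact (Subgroup.mem_centralizer_iff.1 (hL hv)) z hy
    rw [hset]
    refine finsum_mem_congr rfl fun v hv => ?_
    have hvL : v ∈ L := hv.1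
    have hcomm : y * v = v * y := (Subgroup.mem_centralizer_iff.1 (hL hvL)) y hy
    have a1 := (DVD_A h3 L D hL hD ψ₁ h₁.1 y hy).1 v hvL
    have a2 := (DVD_A h3 L D hL hD ψ₂ h₂.1 y⁻¹ (D.inv_mem hy)).1 v⁻¹ (L.inv_mem hvL)
    have a3 := (DVD_A h3 L D hL hD ψ₁ h₁.1 y hy).2
    have a4 := h y⁻¹ (D.inv_mem hy)
    have e3 : (y * v)⁻¹ = y⁻¹ * v⁻¹ := by
      rw [hcomm, mul_inv_rev]
    rw [e3]
    have f1 : ψ₁ (y * v) = ψ₁ y * ψ₁ v / ψ₁ 1 := by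
      rw [← a1]
      field_simp
    have f2 : ψ₂ (y⁻¹ * v⁻¹) = ψ₂ y⁻¹ * ψ₂ v⁻¹ / ψ₂ 1 := by
      rw [← a2]
      field_simp
    have f4 : ψ₂ y⁻¹ = ψ₁ y⁻¹ * ψ₂ 1 / ψ₁ 1 := by
      rw [a4]
      field_simp
    rw [f1, f2, f4]
    have f5 : ψ₁ y * ψ₁ v / ψ₁ 1 * (ψ₁ y⁻¹ * ψ₂ 1 / ψ₁ 1 * ψ₂ v⁻¹ / ψ₂ 1) =
        (ψ₁ y * ψ₁ y⁻¹) * (ψ₁ v * ψ₂ v⁻¹) / ψ₁ 1 ^ 2 := by
      field_simp
    rw [f5, a3]
    field_simp
  · have hy2 : y ∉ (D : Set G) := hy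
    rw [DVD_neg hy2]
    by_cases hy1 : y ∈ {y : G | y ∈ L ∧ PEl p y}
    · rw [DVD_pos hy1]
      have h0 : ∀ v ∈ {v : G | v ∈ Cz L y ∧ PReg p v}, ψ₁ (y * v) * ψ₂ (y * v)⁻¹ = 0 := by
        intro v hv
        rw [h1 p M hs G L D w hL ψ hψ hdef ψ₁ h₁ y hy1.1 hy1.2 hy v hv.1 hv.2, zero_mul]
      rw [finsum_mem_congr rfl h0]
      simp
    · rw [DVD_neg hy1]

theorem DVD_int {q : ℚ} (h : IsIntegral ℤ ((q : ℚ) : ℂ)) : ∃ z : ℤ, (z : ℚ) = q := by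
  have h1 : IsIntegral ℤ (algebraMap ℚ ℂ q) := by simpa using h
  have h2 : IsIntegral ℤ q := (isIntegral_algebraMap_iff (algebraMap ℚ ℂ).injective).1 h1
  obtain ⟨z, hz⟩ := IsIntegrallyClosed.isIntegral_iff.1 h2
  exact ⟨z, by simpa using hz⟩

/-- Row DVD. -/
theorem DVD (h1 : VN1_stmt) (h2 : PPT_stmt) (h3 : SCH_stmt) (h4 : C3_stmt) (h5 : B2_stmt) : DVD_stmt := by
  intro p M hs G _ _ L D w hL ψ hψ hdef
  have hD : D ≤ L := hdef.le.trans inf_le_left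
  have hDpos : (Nat.card D : ℂ) ≠ 0 := by
    have : 0 < Nat.card D := Nat.card_pos
    exact_mod_cast this.ne'
  have hBB : ∀ ψ₁ ∈ Bl M L ψ, ∀ ψ₂ ∈ Bl M L ψ, (∀ d ∈ D, ψ₁ d * ψ₂ 1 = ψ₂ d * ψ₁ 1) →
      (ψ₁ = ψ₂ → (Nat.card D : ℂ) * ∑ᶠ v ∈ {v : G | v ∈ L ∧ PReg p v}, ψ₁ v * ψ₂ v⁻¹ = Nat.card L) ∧
      (ψ₁ ≠ ψ₂ → ∑ᶠ v ∈ {v : G | v ∈ L ∧ PReg p v}, ψ₁ v * ψ₂ v⁻¹ = 0) := by
    intro ψ₁ h₁ ψ₂ h₂ h
    have e := DVD_B h1 h2 h3 h5 hs L D w hL ψ hψ hdef ψ₁ h₁ ψ₂ h₂ h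
    have e2 := ((h5 G L).2 ψ₁ h₁.1).2.2.2.2 ψ₂ h₂.1
    rw [e] at e2
    refine ⟨fun h => ?_, fun h => ?_⟩
    · rw [e2, if_pos h]
    · rw [if_neg h] at e2
      exact (mul_eq_zero.1 e2).resolve_left hDpos
  refine ⟨fun ψ' hψ' y hy => DVD_A h3 L D hL hD ψ' hψ' y hy, hBB, ?_⟩
  intro ψ' hψ'
  have b := (h5 G L).2 ψ' hψ'.1
  obtain ⟨n, hn, en, -⟩ := b.1
  have hsum := (hBB ψ' hψ' ψ' hψ' (fun d _ => rfl)).1 rfl
  classical
  set f : G → ℂ := fun x => if x ∈ L ∧ PReg p x then ψ' x⁻¹ else 0 with hf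
  have hconj : ∀ l ∈ L, ∀ x, (l * x * l⁻¹ ∈ L ∧ PReg p (l * x * l⁻¹)) ↔ (x ∈ L ∧ PReg p x) := by
    intro l hl x
    have e1 : l * x * l⁻¹ ∈ L ↔ x ∈ L := by
      constructor
      · intro hz
        have := L.mul_mem (L.mul_mem (L.inv_mem hl) hz) hl
        have e2 : l⁻¹ * (l * x * l⁻¹) * l = x := by group
        rwa [e2] at this
      · intro hz
        exact L.mul_mem (L.mul_mem hl hz) (L.inv_mem hl)
    have e2 : orderOf (l * x * l⁻¹) = orderOf x := by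
      have := orderOf_injective (MulAut.conj l).toMonoidHom (MulAut.conj l).injective x
      simpa using this
    unfold PReg
    rw [e1, e2]
  have hinv : ∀ l ∈ L, ∀ x, f (l * x * l⁻¹) = f x := by
    intro l hl x
    rw [hf]
    simp only [hconj l hl x]
    by_cases hx : x ∈ L ∧ PReg p x
    · rw [if_pos hx, if_pos hx]
      have e : (l * x * l⁻¹)⁻¹ = l * x⁻¹ * l⁻¹ := by group
      rw [e]
      exact b.2.1 x⁻¹ l hl
    · rw [if_neg hx, if_neg hx]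
  have hint : ∀ x, IsIntegral ℤ (f x) := by
    intro x
    rw [hf]
    by_cases hx : x ∈ L ∧ PReg p x
    · simp only [if_pos hx]
      exact b.2.2.1 _
    · simp only [if_neg hx]
      exact isIntegral_zero
  have hcc := (h4 G).1 L ψ' hψ'.1 f hinv hint
  have hval : cc ψ' f = ((((Nat.card L : ℚ) / (Nat.card D * n)) : ℚ) : ℂ) := by
    unfold cc
    have e1 : ∑ᶠ x, f x * ψ' x = ∑ᶠ v ∈ {v : G | v ∈ L ∧ PReg p v}, ψ' v * ψ' v⁻¹ := by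
      refine finsum_congr fun x => ?_
      rw [hf]
      by_cases hx : x ∈ L ∧ PReg p x
      · have hx' : x ∈ {v : G | v ∈ L ∧ PReg p v} := hx
        rw [DVD_pos hx']
        simp only [if_pos hx]
        ring
      · have hx' : x ∉ {v : G | v ∈ L ∧ PReg p v} := hx
        rw [DVD_neg hx']
        simp only [if_neg hx]
        ring
    rw [e1, en]
    push_cast
    rw [← hsum]
    have hn0 : (n : ℂ) ≠ 0 := by exact_mod_cast hn.ne'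
    field_simp
  rw [hval] at hcc
  obtain ⟨z, hz⟩ := DVD_int hcc
  have hDq : (0 : ℚ) < Nat.card D := by exact_mod_cast (Nat.card_pos : 0 < Nat.card D)
  have hLq : (0 : ℚ) < Nat.card L := by exact_mod_cast (Nat.card_pos : 0 < Nat.card L)
  have hnq : (0 : ℚ) < n := by exact_mod_cast hn
  have hz1 : (z : ℚ) * (Nat.card D * n) = Nat.card L := by
    rw [hz]
    field_simp
  have hzpos : 0 < z := by
    have : (0 : ℚ) < z := by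
      rw [hz]
      positivity
    exact_mod_cast this
  obtain ⟨k, rfl⟩ := Int.eq_ofNat_of_zero_le hzpos.le
  refine ⟨n, k, en, ?_⟩
  have h6 : ((n * Nat.card D * k : ℕ) : ℚ) = ((Nat.card L : ℕ) : ℚ) := by
    push_cast
    rw [← hz1]
    push_cast
    ring
  exact_mod_cast h6

end Pool.Agent.FI
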