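import Pool.Agent.helper83.GR.All
import Pool.Agent.helper5.OB.PWN
import Pool.Agent.helper34.FI.CFX
import Pool.Agent.helper93.FI.BQA
import Pool.Agent.helper28.FI.STC
import Pool.Agent.helper11.FI.CLS
import Pool.Agent.helper11.FI.DCM
import Pool.Agent.helper11.FI.SBI
import Pool.Agent.helper21.FI.TPR
import Pool.Agent.helper78.FI.MLT
import Pool.Agent.helper21.FI.EXB
import Pool.Agent.helper78.FI.SPW
import Pool.Agent.helper26.FI.SUP
import Pool.Agent.helper45.FI.DEX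
import Pool.Agent.helper26.FI.DGW
import Pool.Agent.helper31.FI.DGL
import Pool.Agent.helper18.FI.NCJ
import Pool.Agent.helper74.FI.EQY
import Pool.Agent.helper58.FI.BRY
import Pool.Agent.helper18.FI.VN1
import Pool.Agent.helper22.FI.DVD
import Pool.Agent.helper74.FI.ALP
import Pool.Agent.helper68.FI.HTC
import Pool.Agent.helper92.FI.UNQ
import Pool.Agent.helper93.FI.CHD
import Pool.Agent.helper67.FI.GDC
import Pool.Agent.helper68.FI.TTF
import Pool.Agent.helper93.FI.OSM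
import Pool.Agent.helper98.FI.BET
import Pool.Agent.helper22.FI.DFL
import Pool.Agent.helper11.FI.ORP
import Pool.Agent.helper11.FI.SYL
import Pool.Agent.helper76.FI.CJG
import Pool.Agent.helper27.FI.DUN
import Pool.Agent.helper11.FI.CNTL
import Pool.Agent.helper72.FI.BLE
import Pool.Agent.helper59.FI.Base

/-!
# Project fi (MP_baa4d7_al), block A1: assembly
-/

set_option autoImplicit false

namespace Pool.Agent.FI.AllA

open Pool.Agent.helper58.DC Pool.Agent.DI Pool.Agent.GR Pool.Agent.OB Pool.Agent.FI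

theorem dPWN : PWN_stmt := PWN GR.All.dCVF GR.All.dCCI GR.All.dEXP GR.All.dB2
theorem dORP : ORP_stmt := ORP
theorem dCFX : CFX_stmt := CFX dORP
theorem dBQA : BQA_stmt := BQA dCFX
theorem dSYL : SYL_stmt := SYL
theorem dSTC : STC_stmt := STC GR.All.dGLP
theorem dCLS : CLS_stmt := CLS GR.All.dC3
theorem dDCM : DCM_stmt := DCM dCLS
theorem dSBI : SBI_stmt := SBIa
theorem dTRN : TRN_stmt := by
  intro G _ M H L hHL η ψ φ hη hψ h
  have h1 : SB M L η ψ := TRNb hHL hη hψ h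
  exact ⟨h1, fun h2 => h1.trans h2, fun h2 => h1.symm.trans h2⟩
theorem dCJG : CJG_stmt := CJG GR.All.dIF
theorem dTPR : TPR_stmt := TPR dCLS dDCM GR.All.dTI
theorem dBLE : BLE_stmt := BLE dTRN GR.All.dIDM GR.All.dEIN GR.All.dBR0
theorem dMLT : MLT_stmt := MLT dBQA GR.All.dCVF GR.All.dCCI
theorem dEXB : EXB_stmt := EXB dMLT GR.All.dCVF GR.All.dCCI GR.All.dEXP GR.All.dB2 GR.All.dC3
theorem dSPW : SPW_stmt := SPW dBLE dCLS dSBI dPWN GR.All.dCVF GR.All.dCCI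
theorem dSUP : SUP_stmt := SUP dSPW dCFX dCLS
theorem dDEX : DEX_stmt := DEX dBLE dSUP dDCM dSYL dCLS
theorem dDUN : DUN_stmt := DUN dDEX dSUP dSYL
theorem dDGW : DGW_stmt := DGW dBQA dSYL dDCM dCLS GR.All.dCCI GR.All.dCVF
theorem dDGL : DGL_stmt := DGL dDGW dMLT dPWN GR.All.dCVF GR.All.dCCI GR.All.dC3 GR.All.dB2
theorem dCNTL : CNTL_stmt := CNTL dCLS dSBI dSYL
theorem dNCJ : NCJ_stmt := NCJ dSYL
theorem dEQY : EQY_stmt := EQY dBLE GR.All.dBRH GR.All.dLIF GR.All.dNIL GR.All.dCVF GR.All.dCCI GR.All.dIDM GR.All.dC3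
theorem dBRY : BRY_stmt := BRY dEQY dBLE GR.All.dKYG GR.All.dIDM GR.All.dFCO GR.All.dCVF GR.All.dSFC GR.All.dZER
theorem dVN1 : VN1_stmt := VN1 dBRY dCNTL dSTC dSYL GR.All.dB2
theorem dDVD : DVD_stmt := DVD dVN1 GR.All.dPPT GR.All.dSCH GR.All.dC3 GR.All.dB2
theorem dALP : ALP_stmt := ALP dDVD dSBI dDCM dCLS dSYL GR.All.dB2
theorem dHTC : HTC_stmt := HTC dALP dSBI
theorem dUNQ : UNQ_stmt := UNQ dHTC dDVD dSBI GR.All.dB2
theorem dCHD : CHD_stmt := CHD
theorem dGDC : GDC_stmt := GDC dCHD dUNQ dDVD GR.All.dBR0 dBLE GR.All.dB2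
theorem dTTF : TTF_stmt := TTF dCJG
theorem dOSM : OSM_stmt := OSM
theorem dBET : BET_stmt := BET dOSM dTTF dNCJ dCJG dCLS dSYL GR.All.dC3
theorem dDFL : DFL_stmt := DFL dSBI dDCM dCLS dSYL GR.All.dC3

end Pool.Agent.FI.AllA
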