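import Pool.Agent.helper95.FI.SpecV

/-! # fi:PPW -/

set_option autoImplicit false

open Finset

noncomputable section

namespace Pool.Agent.FI

private lemma PPW_sq (m : ℕ) : (m ^ 2) % 8 ≠ 7 := by
  have h : m % 8 < 8 := Nat.mod_lt _ (by norm_num)
  rw [Nat.pow_mod]
  interval_cases h2 : m % 8 <;> simp

private lemma PPW_pp (k : ℕ) (h7 : k % 8 = 7) (hnp : ¬ k.Prime)
    (hL : ArithmeticFunction.vonMangoldt k ≠ 0) :
    ∃ q j : ℕ, q.Prime ∧ Odd q ∧ 3 ≤ j ∧ q ^ j = k := by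
  rw [ArithmeticFunction.vonMangoldt_ne_zero_iff, isPrimePow_nat_iff] at hL
  obtain ⟨q, j, hq, hj, hk⟩ := hL
  have hodd : Odd k := by
    rw [Nat.odd_iff]
    omega
  have hqo : Odd q := by
    rcases Nat.even_or_odd q with he | ho
    · exfalso
      have h1 : Even (q ^ j) := (Nat.even_pow.2 ⟨he, by omega⟩)
      rw [hk] at h1
      exact Nat.not_even_iff_odd.2 hodd h1
    · exact ho
  refine ⟨q, j, hq, hqo, ?_, hk⟩
  by_contra hcon
  have hj' : j = 1 ∨ j = 2 := by omega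
  rcases hj' with h | h
  · rw [h, pow_one] at hk
    rw [hk] at hq
    exact hnp hq
  · rw [h] at hk
    rw [← hk] at h7
    exact PPW_sq q h7

private lemma PPW_ev : ∃ x₀ : ℕ, ∀ x : ℕ, x₀ ≤ x → 10 ≤ Real.log x ∧
    1470 * Real.log x ^ 4 ≤ (x : ℝ) ^ (5 / 6 : ℝ) := by
  have h1 := (Real.tendsto_log_atTop.comp tendsto_natCast_atTop_atTop).eventually
    (Filter.eventually_ge_atTop (10 : ℝ))
  have h := isLittleO_log_rpow_rpow_atTop (4 : ℝ) (show (0 : ℝ) < 5 / 6 by norm_num)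
  have h2 := tendsto_natCast_atTop_atTop.eventually (h.bound (show (0 : ℝ) < 1 / 1470 by norm_num))
  obtain ⟨x₀, h3⟩ := Filter.eventually_atTop.1 (h1.and h2)
  refine ⟨x₀, fun x hx => ?_⟩
  obtain ⟨h4, h5⟩ := h3 x hx
  have h4' : 10 ≤ Real.log x := h4
  refine ⟨h4', ?_⟩
  have h6 : Real.log (x : ℝ) ^ (4 : ℝ) = Real.log (x : ℝ) ^ 4 := by
    rw [← Real.rpow_natCast]
    norm_num
  rw [h6, Real.norm_eq_abs, Real.norm_eq_abs, abs_of_nonneg (by positivity),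
    abs_of_nonneg (by positivity)] at h5
  linarith

theorem PPW (hSIZ : SIZ_stmt) (hCN1 : CN1_stmt) : PPW_stmt := by
  classical
  obtain ⟨x₀, hx₀⟩ := PPW_ev
  refine ⟨max x₀ 1, ?_⟩
  intro x hx A hA
  obtain ⟨hL, hbig⟩ := hx₀ x (le_trans (le_max_left _ _) hx)
  have hx1 : 1 ≤ x := le_trans (le_max_right _ _) hx
  have hxr : (1 : ℝ) ≤ x := by exact_mod_cast hx1
  set L := Real.log x with hLdef
  -- facts for the pairs
  have hmem : ∀ ζ ∈ PZ x A, (1 ≤ ζ.1 ∧ ζ.1 ≤ x ∧ (x : ℤ) < ζ.2 ∧ ζ.2 ≤ 2 * x) ∧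
      ζ.1 % 2 = 1 ∧ IsCoprime ζ.1 ζ.2 := by
    intro ζ hζ
    unfold PZ at hζ
    rw [Finset.mem_filter, Finset.mem_product, Finset.mem_Icc, Finset.mem_Ioc] at hζ
    have hA' : (A : ℤ) ≤ x := by exact_mod_cast hA
    exact ⟨⟨hζ.1.1.1, hζ.1.1.2.trans hA', hζ.1.2.1, hζ.1.2.2⟩, hζ.2.1, hζ.2.2⟩
  have hFd : ∀ ζ ∈ PZ x A, Fd ζ := by
    intro ζ hζ
    obtain ⟨⟨h1, h2, h3, h4⟩, h5, h6⟩ := hmem ζ hζ
    refine ⟨h5, Or.inr ?_⟩
    rw [abs_of_pos (by linarith)]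
    linarith
  have hN8 : ∀ ζ ∈ PZ x A, N8 ζ < 0 ∧ ((nn ζ : ℕ) : ℤ) ≤ 32 * (x : ℤ) ^ 2 := by
    intro ζ hζ
    obtain ⟨⟨h1, h2, h3, h4⟩, h5, h6⟩ := hmem ζ hζ
    have hneg : N8 ζ < 0 := by
      unfold N8
      nlinarith
    refine ⟨hneg, ?_⟩
    unfold nn
    rw [Int.natCast_natAbs, abs_of_neg hneg]
    unfold N8
    nlinarith
  have h7 : ∀ ζ ∈ PZ x A, nn ζ % 8 = 7 ∧ ζ ∈ FF (nn ζ) := by
    intro ζ hζ
    obtain ⟨_, _, h3, h4, h5⟩ := hSIZ ζ (hFd ζ hζ)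
    refine ⟨?_, h4⟩
    rcases h5 with h6 | h6
    · exfalso
      have := (hN8 ζ hζ).1
      omega
    · exact h6.2
  -- the set of the pairs
  set S := (PZ x A).filter (fun ζ => ¬ (nn ζ).Prime ∧ ArithmeticFunction.vonMangoldt (nn ζ) ≠ 0) with hS
  set Q : ℕ := ⌊4 * (x : ℝ) ^ (2 / 3 : ℝ)⌋₊ with hQ
  set J : ℕ := ⌊6 * L⌋₊ with hJ
  set T := ((range (Q + 1)) ×ˢ (range (J + 1))).filter (fun p : ℕ × ℕ => p.1.Prime ∧ Odd p.1) with hT
  have hlog32 : Real.log (32 * (x : ℝ) ^ 2) ≤ 3 * L := by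
    rw [Real.log_mul (by norm_num) (by positivity), Real.log_pow]
    have h1 : Real.log 32 ≤ 4 := by
      have h2 : (32 : ℝ) = 2 ^ 5 := by norm_num
      rw [h2, Real.log_pow]
      have := Real.log_two_lt_d9
      push_cast
      linarith
    push_cast
    linarith
  have hbound : ∀ ζ ∈ S, ∃ p ∈ T, nn ζ = p.1 ^ p.2 := by
    intro ζ hζ
    obtain ⟨h1, h2, h3⟩ := Finset.mem_filter.1 hζ
    obtain ⟨q, j, hq, hqo, hj, hk⟩ := PPW_pp (nn ζ) (h7 ζ h1).1 h2 h3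
    have hle : nn ζ ≤ 32 * x ^ 2 := by
      have := (hN8 ζ h1).2
      exact_mod_cast this
    have hler : ((q : ℝ)) ^ j ≤ 32 * (x : ℝ) ^ 2 := by
      rw [← hk] at hle
      exact_mod_cast hle
    have hq1 : (1 : ℝ) ≤ q := by exact_mod_cast hq.one_lt.le
    have hq2 : (2 : ℝ) ≤ q := by exact_mod_cast hq.two_le
    refine ⟨(q, j), Finset.mem_filter.2 ⟨Finset.mem_product.2 ⟨?_, ?_⟩, hq, hqo⟩, hk.symm⟩
    · rw [Finset.mem_range, Nat.lt_succ_iff]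
      refine Nat.le_floor ?_
      have h4 : (q : ℝ) ^ 3 ≤ (4 * (x : ℝ) ^ (2 / 3 : ℝ)) ^ 3 := by
        have h5 : (q : ℝ) ^ 3 ≤ (q : ℝ) ^ j := pow_le_pow_right₀ hq1 hj
        have h6 : (4 * (x : ℝ) ^ (2 / 3 : ℝ)) ^ 3 = 64 * (x : ℝ) ^ 2 := by
          rw [mul_pow, ← Real.rpow_natCast ((x : ℝ) ^ (2 / 3 : ℝ)), ← Real.rpow_mul (by positivity)]
          norm_num
        rw [h6]
        have h8 : (0 : ℝ) ≤ (x : ℝ) ^ 2 := by positivity
        linarith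
      exact le_of_pow_le_pow_left₀ (by norm_num) (by positivity) h4
    · rw [Finset.mem_range, Nat.lt_succ_iff]
      refine Nat.le_floor ?_
      have h4 : (2 : ℝ) ^ j ≤ 32 * (x : ℝ) ^ 2 :=
        (pow_le_pow_left₀ (by norm_num) hq2 j).trans hler
      have h5 := Real.log_le_log (by positivity) h4
      rw [Real.log_pow] at h5
      have h6 : (1 : ℝ) / 2 ≤ Real.log 2 := by
        have := Real.log_two_gt_d9
        linarith
      have h8 : (0 : ℝ) ≤ (j : ℝ) := Nat.cast_nonneg _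
      have h9 : (j : ℝ) * (1 / 2) ≤ (j : ℝ) * Real.log 2 := mul_le_mul_of_nonneg_left h6 h8
      linarith
  have hScard : S.card ≤ (Q + 1) * (J + 1) * (J + 1) := by
    have h1 : S ⊆ T.biUnion (fun p => {z ∈ FF (p.1 ^ p.2) | nn z = p.1 ^ p.2 ∧ IsCoprime z.1 z.2}) := by
      intro ζ hζ
      obtain ⟨p, hp, hk⟩ := hbound ζ hζ
      have h2 := (Finset.mem_filter.1 hζ).1
      refine Finset.mem_biUnion.2 ⟨p, hp, Finset.mem_filter.2 ⟨?_, hk, (hmem ζ h2).2.2⟩⟩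
      rw [← hk]
      exact (h7 ζ h2).2
    refine (Finset.card_le_card h1).trans (Finset.card_biUnion_le.trans ?_)
    have h2 : ∀ p ∈ T, ({z ∈ FF (p.1 ^ p.2) | nn z = p.1 ^ p.2 ∧ IsCoprime z.1 z.2} :
        Finset (ℤ × ℤ)).card ≤ J + 1 := by
      intro p hp
      obtain ⟨h3, h4, h5⟩ := Finset.mem_filter.1 hp
      refine (hCN1 (p.1 ^ p.2) (h5.pow)).trans ?_
      rw [Nat.divisors_prime_pow h4, Finset.card_map, Finset.card_range]
      have h6 := Finset.mem_range.1 (Finset.mem_product.1 h3).2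
      omega
    refine (Finset.sum_le_card_nsmul _ _ _ h2).trans ?_
    rw [smul_eq_mul]
    refine Nat.mul_le_mul_right _ ?_
    refine (Finset.card_filter_le _ _).trans ?_
    rw [Finset.card_product, Finset.card_range, Finset.card_range]
  -- the terms
  have hterm : ∀ ζ ∈ PZ x A, th ζ.2 * ArithmeticFunction.vonMangoldt (nn ζ) ≤ 6 * L ^ 2 := by
    intro ζ hζ
    obtain ⟨⟨h1, h2, h3, h4⟩, h5, h6⟩ := hmem ζ hζ
    have hx0 : (0 : ℤ) < x := by exact_mod_cast hx1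
    have h8 : th ζ.2 ≤ 2 * L := by
      unfold th
      split_ifs
      · have h9 : ((ζ.2 : ℤ) : ℝ) ≤ 2 * x := by exact_mod_cast h4
        have h10 : (0 : ℝ) < ((ζ.2 : ℤ) : ℝ) := by
          have : (0 : ℤ) < ζ.2 := by linarith
          exact_mod_cast this
        have h11 := Real.log_le_log h10 h9
        rw [Real.log_mul (by norm_num) (by positivity)] at h11
        have := Real.log_two_lt_d9
        linarith
      · linarith
    have h9 : 0 ≤ ArithmeticFunction.vonMangoldt (nn ζ) := ArithmeticFunction.vonMangoldt_nonneg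
    have h10 : ArithmeticFunction.vonMangoldt (nn ζ) ≤ 3 * L := by
      refine ArithmeticFunction.vonMangoldt_le_log.trans ?_
      have h11 : ((nn ζ : ℕ) : ℝ) ≤ 32 * (x : ℝ) ^ 2 := by
        have := (hN8 ζ hζ).2
        exact_mod_cast this
      have h12 : 0 < nn ζ := by
        have := (h7 ζ hζ).1
        omega
      have h13 : (0 : ℝ) < ((nn ζ : ℕ) : ℝ) := by exact_mod_cast h12
      exact (Real.log_le_log h13 h11).trans hlog32
    have h11 : th ζ.2 * ArithmeticFunction.vonMangoldt (nn ζ) ≤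
        2 * L * ArithmeticFunction.vonMangoldt (nn ζ) := mul_le_mul_of_nonneg_right h8 h9
    have h12 : 2 * L * ArithmeticFunction.vonMangoldt (nn ζ) ≤ 2 * L * (3 * L) :=
      mul_le_mul_of_nonneg_left h10 (by linarith)
    nlinarith
  have hsum : ∑ ζ ∈ PZ x A with ¬ (nn ζ).Prime, th ζ.2 * ArithmeticFunction.vonMangoldt (nn ζ) =
      ∑ ζ ∈ S, th ζ.2 * ArithmeticFunction.vonMangoldt (nn ζ) := by
    rw [hS]
    symm
    refine Finset.sum_subset_zero_on_sdiff ?_ ?_ (fun _ _ => rfl)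
    · intro ζ hζ
      obtain ⟨h1, h2, _⟩ := Finset.mem_filter.1 hζ
      exact Finset.mem_filter.2 ⟨h1, h2⟩
    · intro ζ hζ
      obtain ⟨h1, h2⟩ := Finset.mem_sdiff.1 hζ
      obtain ⟨h3, h4⟩ := Finset.mem_filter.1 h1
      by_cases h5 : ArithmeticFunction.vonMangoldt (nn ζ) = 0
      · rw [h5, mul_zero]
      · exact absurd (Finset.mem_filter.2 ⟨h3, h4, h5⟩) h2
  rw [hsum]
  have h1 := Finset.sum_le_card_nsmul S _ _ (fun ζ hζ => hterm ζ (Finset.mem_filter.1 hζ).1)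
  rw [nsmul_eq_mul] at h1
  refine h1.trans ?_
  have hx23 : (1 : ℝ) ≤ (x : ℝ) ^ (2 / 3 : ℝ) := Real.one_le_rpow hxr (by norm_num)
  have hQr : (Q : ℝ) + 1 ≤ 5 * (x : ℝ) ^ (2 / 3 : ℝ) := by
    have h2 : (Q : ℝ) ≤ 4 * (x : ℝ) ^ (2 / 3 : ℝ) := Nat.floor_le (by positivity)
    linarith
  have hJr : (J : ℝ) + 1 ≤ 7 * L := by
    have h2 : (J : ℝ) ≤ 6 * L := Nat.floor_le (by linarith)
    linarith
  have hSr : (S.card : ℝ) ≤ ((Q : ℝ) + 1) * ((J : ℝ) + 1) * ((J : ℝ) + 1) := by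
    exact_mod_cast hScard
  have hJ0 : (0 : ℝ) ≤ (J : ℝ) + 1 := by positivity
  have h2 : ((Q : ℝ) + 1) * ((J : ℝ) + 1) * ((J : ℝ) + 1) ≤
      (5 * (x : ℝ) ^ (2 / 3 : ℝ)) * (7 * L) * (7 * L) := by
    have hL0 : 0 ≤ L := by linarith
    refine mul_le_mul (mul_le_mul hQr hJr hJ0 (by positivity)) hJr hJ0 (by positivity)
  have h3 : (S.card : ℝ) * (6 * L ^ 2) ≤ (5 * (x : ℝ) ^ (2 / 3 : ℝ)) * (7 * L) * (7 * L) * (6 * L ^ 2) :=
    mul_le_mul_of_nonneg_right (hSr.trans h2) (by positivity)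
  refine h3.trans ?_
  have h4 : (5 * (x : ℝ) ^ (2 / 3 : ℝ)) * (7 * L) * (7 * L) * (6 * L ^ 2) =
      (x : ℝ) ^ (2 / 3 : ℝ) * (1470 * L ^ 4) := by ring
  rw [h4]
  have h5 : (x : ℝ) ^ (3 / 2 : ℝ) = (x : ℝ) ^ (2 / 3 : ℝ) * (x : ℝ) ^ (5 / 6 : ℝ) := by
    rw [← Real.rpow_add (by linarith)]
    norm_num
  rw [h5]
  exact mul_le_mul_of_nonneg_left hbig (by positivity)

end Pool.Agent.FI
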